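import Pool.Agent.N600.L3.Stm

/-!
# L3/EPS2 (helper31 for helper600, page MP_d69e80_al)

Half of the characters can be made non-trivial at the same time (values in a commutative group).
Copy of G3/EPS (helper499), with another target.
-/

set_option autoImplicit false

namespace Pool.Agent.N31.L3

open Pool.Agent.N600.L3
open Pool.Agent.N600.G3 (AA)

universe u

theorem map_AA {M : Type*} [Group M] {Γ : Type*} [CommMonoid Γ] (w : M →* Γ) {K : ℕ}
    (c : Fin K → M) (ε : Fin K → Bool) :
    w (AA c ε) = ∏ j, w (if ε j then c j else 1) := by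
  unfold AA
  rw [map_list_prod, List.map_ofFn, List.prod_ofFn]
  rfl

theorem flip_ne {M : Type*} [Group M] {Γ : Type*} [CommMonoid Γ] (w : M →* Γ) {K : ℕ}
    (c : Fin K → M) (k : Fin K) (hk : w (c k) ≠ 1) (ε : Fin K → Bool)
    (h : w (AA c ε) = 1) : w (AA c (Function.update ε k (!ε k))) ≠ 1 := by
  intro h'
  rw [map_AA, ← Finset.mul_prod_erase _ _ (Finset.mem_univ k)] at h h'
  have he : ∏ j ∈ Finset.univ.erase k, w (if Function.update ε k (!ε k) j then c j else 1) =
      ∏ j ∈ Finset.univ.erase k, w (if ε j then c j else 1) := by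
    refine Finset.prod_congr rfl fun j hj => ?_
    rw [Function.update_of_ne (Finset.ne_of_mem_erase hj)]
  rw [he, Function.update_self] at h'
  cases hε : ε k with
  | true =>
    rw [hε] at h h'
    simp only [if_true, Bool.not_true, Bool.false_eq_true, if_false, map_one, one_mul] at h h'
    rw [h', mul_one] at h
    exact hk h
  | false =>
    rw [hε] at h h'
    simp only [if_true, Bool.not_false, Bool.false_eq_true, if_false, map_one, one_mul] at h h'
    rw [h, mul_one] at h'
    exact hk h'

theorem t_eps2 : S_EPS2.{u} := by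
  classical
  intro M _ Γ _ K w c hc
  by_contra hcon
  push Not at hcon
  -- the number of good signs for one index
  have h1 : ∀ k : Fin K, 2 ^ K ≤ 2 * (Finset.univ.filter
      fun ε : Fin K → Bool => w k (AA c ε) ≠ 1).card := by
    intro k
    have h2 := Finset.card_filter_add_card_filter_not (s := (Finset.univ : Finset (Fin K → Bool)))
      (fun ε : Fin K → Bool => w k (AA c ε) = 1)
    have h3 : (Finset.univ.filter fun ε : Fin K → Bool => w k (AA c ε) = 1).card ≤
        (Finset.univ.filter fun ε : Fin K → Bool => w k (AA c ε) ≠ 1).card := by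
      refine Finset.card_le_card_of_injOn (fun ε => Function.update ε k (!ε k)) ?_ ?_
      · intro ε hε
        have h4 : w k (AA c ε) = 1 := by simpa using hε
        have h5 := flip_ne (w k) c k (hc k) ε h4
        simpa using h5
      · intro a _ b _ hab
        funext j
        have h4 := congrFun hab j
        by_cases hj : j = k
        · subst hj
          simpa using h4
        · simpa [Function.update_of_ne hj] using h4
    have h4 : (Finset.univ : Finset (Fin K → Bool)).card = 2 ^ K := by
      rw [Finset.card_univ]
      simp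
    have h5 : (Finset.univ.filter fun ε : Fin K → Bool => ¬ w k (AA c ε) = 1) =
      (Finset.univ.filter fun ε : Fin K → Bool => w k (AA c ε) ≠ 1) := rfl
    rw [h5] at h2
    omega
  have h6 : ∑ ε : Fin K → Bool, (Finset.univ.filter fun k : Fin K => w k (AA c ε) ≠ 1).card =
      ∑ k : Fin K, (Finset.univ.filter fun ε : Fin K → Bool => w k (AA c ε) ≠ 1).card := by
    simp only [Finset.card_filter]
    exact Finset.sum_comm
  have h7 : K * 2 ^ K ≤ 2 * ∑ k : Fin K,
      (Finset.univ.filter fun ε : Fin K → Bool => w k (AA c ε) ≠ 1).card := by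
    rw [Finset.mul_sum]
    calc K * 2 ^ K = ∑ _k : Fin K, 2 ^ K := by simp
      _ ≤ _ := Finset.sum_le_sum fun k _ => h1 k
  have h8 : 2 * ∑ ε : Fin K → Bool,
      (Finset.univ.filter fun k : Fin K => w k (AA c ε) ≠ 1).card < K * 2 ^ K := by
    rw [Finset.mul_sum]
    calc ∑ ε : Fin K → Bool, 2 * (Finset.univ.filter fun k : Fin K => w k (AA c ε) ≠ 1).card
        < ∑ _ε : Fin K → Bool, K := by
          refine Finset.sum_lt_sum_of_nonempty Finset.univ_nonempty fun ε _ => ?_
          have h9 := hcon ε
          rwa [Set.ncard_eq_toFinset_card', Set.toFinset_ofPred] at h9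
      _ = K * 2 ^ K := by
          rw [Finset.sum_const, Finset.card_univ]
          simp [mul_comm]
  rw [h6] at h8
  exact absurd h7 (not_le.mpr h8)

end Pool.Agent.N31.L3
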